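import Pool.Agent.OGP.OA.Ext

/-!
# OGP, operator algebra part: existence of the extension
-/

open Filter Topology

namespace Pool.Agent.OGP

/-- A dense representation of a *-algebra: approximation of `T = H(X)`. -/
theorem side_gen {A : Type*} [CStarAlgebra A] [TrAlg A] {R : Type*} [Ring R] [Algebra ℂ R]
    (χ : R →ₐ[ℂ] A) (hd : ∀ (T : A) (ε : ℝ), 0 < ε → ∃ r, two (T - χ r) < ε) (T : A)
    (hT : ‖T‖ ≤ 1 / 2) :
    ∃ f : ℕ → R, (∀ i j, two (χ (f i - f j)) < (1 / 2) ^ i + (1 / 2) ^ j) ∧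
      ∀ k f', χ f' = star (χ (f k)) → ∀ (C : ℝ) (N : ℕ), ‖χ (f k)‖ ≤ C →
        two (T - χ (approxP C N (f k) f')) ≤
          5 / 2 * (1 / 2) ^ k + 2 * C * (1 - (1 + C ^ 2)⁻¹) ^ N := by
  obtain ⟨X, hX, hXT⟩ := exists_hh hT
  choose f hf using fun k : ℕ => hd X ((1 / 2) ^ k) (by positivity)
  refine ⟨f, fun i j => ?_, fun k f' hf' C N hC => ?_⟩
  · rw [map_sub]
    have h1 := two_sub_le_sub (χ (f i)) X (χ (f j))
    rw [two_sub_comm (χ (f i)) X] at h1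
    have h2 := hf i
    have h3 := hf j
    linarith
  · rw [map_approxP, hf']
    have h1 := two_sub_le_sub T (hh (χ (f k))) (approxP C N (χ (f k)) (star (χ (f k))))
    have h2 := hh_approx' (χ (f k)) hC N
    have h3 := two_le_norm (hh (χ (f k)) - approxP C N (χ (f k)) (star (χ (f k))))
    have h4 := two_hh_sub_le X (χ (f k))
    rw [hXT] at h4
    have h5 := hf k
    linarith

theorem side_LG (G : Type*) [Group G] (T : LG G) (hT : ‖T‖ ≤ 1 / 2) :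
    ∃ f : ℕ → MonoidAlgebra ℂ G,
      (∀ i j, two (lamA G (f i - f j)) < (1 / 2) ^ i + (1 / 2) ^ j) ∧
      ∀ k f', lamA G f' = star (lamA G (f k)) → ∀ (C : ℝ) (N : ℕ), ‖lamA G (f k)‖ ≤ C →
        two (T - lamA G (approxP C N (f k) f')) ≤
          5 / 2 * (1 / 2) ^ k + 2 * C * (1 - (1 + C ^ 2)⁻¹) ^ N :=
  @side_gen (LG G) (cstarLG G) (instTrAlgLG G) _ _ _ (lamA G)
    (fun T _ hε => exists_two_lt G T hε) T hT

section ext

variable {G : Type*} [Group G] {A : ℕ → Type*} [∀ n, CStarAlgebra (A n)] [∀ n, TrAlg (A n)]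
  {𝒰 : Ultrafilter ℕ} {ψ : G →* BF A}

theorem exists_rep_half (h𝒰 : (𝒰 : Filter ℕ) ≤ atTop) (hs : ∀ g, star (ψ g) = ψ g⁻¹)
    (hfree : ∀ g, g ≠ 1 → Tendsto (fun n => TrAlg.tau ((ψ g : ∀ n, A n) n)) 𝒰 (𝓝 0))
    (T : LG G) (hT : ‖T‖ ≤ 1 / 2) : ∃ y, Rep 𝒰 ψ T y := by
  classical
  obtain ⟨f, hf1, hf2⟩ := side_LG G T hT
  -- the good sets
  let E : ℕ → Set ℕ := fun k => {n | k ≤ n ∧ ∀ i ∈ Finset.range (k + 1), ∀ j ∈ Finset.range (k + 1),
    two (PhN ψ n (f i - f j)) < (1 / 2) ^ i + (1 / 2) ^ j}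
  have hE : ∀ k, ∀ᶠ n in (𝒰 : Filter ℕ), n ∈ E k := by
    intro k
    have h1 : ∀ᶠ n in (𝒰 : Filter ℕ), k ≤ n := h𝒰 (eventually_ge_atTop k)
    have h2 : ∀ᶠ n in (𝒰 : Filter ℕ), ∀ i ∈ Finset.range (k + 1), ∀ j ∈ Finset.range (k + 1),
        two (PhN ψ n (f i - f j)) < (1 / 2) ^ i + (1 / 2) ^ j := by
      refine (Filter.eventually_all_finset _).2 fun i _ =>
        (Filter.eventually_all_finset _).2 fun j _ => ?_
      have h3 := TU.tendsto_nn (𝒰 := 𝒰) (PhB ψ (f i - f j))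
      have h4 : TU.nn (TU.mk A 𝒰 (PhB ψ (f i - f j))) < (1 / 2) ^ i + (1 / 2) ^ j := by
        have h5 := nn_PhU 𝒰 hs hfree (f i - f j)
        rw [PhU_apply] at h5
        rw [h5]
        exact hf1 i j
      exact h3.eventually_lt_const h4
    filter_upwards [h1, h2] with n hn1 hn2
    exact ⟨hn1, hn2⟩
  let K : ℕ → ℕ := fun n => Nat.findGreatest (fun k => n ∈ E k) n
  have hK : ∀ k n, n ∈ E k → k ≤ K n ∧ n ∈ E (K n) := by
    intro k n hn
    refine ⟨Nat.le_findGreatest hn.1 hn, ?_⟩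
    exact Nat.findGreatest_spec (P := fun k => n ∈ E k) hn.1 hn
  let y : BF A := ⟨fun n => hh (PhN ψ n (f (K n))), 1, fun n => norm_hh_le _⟩
  let Y : ℕ → BF A := fun k => ⟨fun n => hh (PhN ψ n (f k)), 1, fun n => norm_hh_le _⟩
  have hyY : ∀ k, TU.nn (TU.mk A 𝒰 y - TU.mk A 𝒰 (Y k)) ≤ 5 * (1 / 2) ^ k := by
    intro k
    rw [← map_sub]
    refine le_of_tendsto (TU.tendsto_nn (𝒰 := 𝒰) (y - Y k)) ?_
    filter_upwards [hE k] with n hn
    obtain ⟨h1, h2⟩ := hK k n hn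
    change two (hh (PhN ψ n (f (K n))) - hh (PhN ψ n (f k))) ≤ _
    refine (two_hh_sub_le _ _).trans ?_
    rw [← map_sub]
    have h3 := h2.2 (K n) (Finset.mem_range.2 (Nat.lt_succ_self _)) k
      (Finset.mem_range.2 (Nat.lt_succ_of_le h1))
    have h4 : ((1 : ℝ) / 2) ^ (K n) ≤ (1 / 2) ^ k :=
      pow_le_pow_of_le_one (by norm_num) (by norm_num) h1
    linarith
  refine ⟨TU.mk A 𝒰 y, fun ε hε => ?_⟩
  -- choice of `k`
  obtain ⟨k, hk⟩ := exists_pow_lt_of_lt_one (show 0 < ε / 10 by positivity)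
    (show (1 / 2 : ℝ) < 1 by norm_num)
  obtain ⟨f', hf'1, hf'2⟩ := exists_adj hs (f k)
  obtain ⟨C₁, hC₁⟩ := (PhB ψ (f k)).2
  set C : ℝ := max ‖lamA G (f k)‖ C₁ with hC
  have hC0 : 0 ≤ C := (norm_nonneg _).trans (le_max_left _ _)
  have hlim : Tendsto (fun N : ℕ => 2 * C * (1 - (1 + C ^ 2)⁻¹) ^ N) atTop (𝓝 0) := by
    have h1 : 0 < (1 + C ^ 2)⁻¹ := by positivity
    have h2 : (1 + C ^ 2)⁻¹ ≤ 1 := inv_le_one_of_one_le₀ (by nlinarith)
    have h3 := (tendsto_pow_atTop_nhds_zero_of_lt_one (r := 1 - (1 + C ^ 2)⁻¹) (by linarith)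
      (by linarith)).const_mul (2 * C)
    rwa [mul_zero] at h3
  obtain ⟨N, hN⟩ := (hlim.eventually_lt_const (show 0 < ε / 2 by positivity)).exists
  refine ⟨approxP C N (f k) f', ?_, ?_⟩
  · have h1 := hf2 k f' hf'1 C N (le_max_left _ _)
    linarith
  · have h1 : TU.nn (TU.mk A 𝒰 (Y k) - PhU 𝒰 ψ (approxP C N (f k) f')) ≤
        2 * C * (1 - (1 + C ^ 2)⁻¹) ^ N := by
      rw [PhU_apply, ← map_sub]
      refine le_of_tendsto' (TU.tendsto_nn (𝒰 := 𝒰) _) fun n => ?_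
      change two (hh (PhN ψ n (f k)) - PhN ψ n (approxP C N (f k) f')) ≤ _
      refine (two_le_norm _).trans ?_
      rw [map_approxP]
      have h2 : PhN ψ n f' = star (PhN ψ n (f k)) := by
        rw [PhN_apply, PhN_apply, hf'2]
        rfl
      rw [h2]
      exact hh_approx' _ ((hC₁ n).trans (le_max_right _ _)) N
    have h2 := hyY k
    have h3 := TU.nn_sub_le_sub (TU.mk A 𝒰 y) (TU.mk A 𝒰 (Y k))
      (PhU 𝒰 ψ (approxP C N (f k) f'))
    linarith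

theorem exists_rep (h𝒰 : (𝒰 : Filter ℕ) ≤ atTop) (hs : ∀ g, star (ψ g) = ψ g⁻¹)
    (hfree : ∀ g, g ≠ 1 → Tendsto (fun n => TrAlg.tau ((ψ g : ∀ n, A n) n)) 𝒰 (𝓝 0))
    (T : LG G) : ∃ y, Rep 𝒰 ψ T y := by
  set c : ℂ := ((2 * (‖T‖ + 1) : ℝ) : ℂ) with hc
  have hc0 : c ≠ 0 := by
    rw [hc]
    exact Complex.ofReal_ne_zero.2 (by positivity)
  have hcn : ‖c‖ = 2 * (‖T‖ + 1) := by
    rw [hc, Complex.norm_real, Real.norm_eq_abs, abs_of_pos (by positivity)]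
  have hT' : ‖c⁻¹ • T‖ ≤ 1 / 2 := by
    rw [norm_smul, norm_inv, hcn, inv_mul_le_iff₀ (by positivity)]
    linarith
  obtain ⟨y, hy⟩ := exists_rep_half h𝒰 hs hfree (c⁻¹ • T) hT'
  refine ⟨c • y, ?_⟩
  have h := rep_smul c hy
  rwa [smul_smul, mul_inv_cancel₀ hc0, one_smul] at h

/-- A homomorphism of `G` in the unitary group of the ultraproduct whose traces vanish off `1`
extends to a trace preserving *-homomorphism of `LG G`. -/
theorem exists_hom (h𝒰 : (𝒰 : Filter ℕ) ≤ atTop) (hs : ∀ g, star (ψ g) = ψ g⁻¹)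
    (hfree : ∀ g, g ≠ 1 → Tendsto (fun n => TrAlg.tau ((ψ g : ∀ n, A n) n)) 𝒰 (𝓝 0)) :
    ∃ π : LG G →⋆ₐ[ℂ] TU A 𝒰, (∀ x, TU.tr A 𝒰 (π x) = TrAlg.tau x) ∧
      ∀ g, π (lamE G g) = TU.mk A 𝒰 (ψ g) := by
  choose π hπ using fun T : LG G => exists_rep h𝒰 hs hfree T
  have huniq : ∀ {T : LG G} {y : TU A 𝒰}, Rep 𝒰 ψ T y → π T = y := fun {T y} hy =>
    rep_unique hs hfree (hπ T) hy
  have hone : ∀ c : ℂ, π (algebraMap ℂ (LG G) c) = algebraMap ℂ (TU A 𝒰) c := by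
    intro c
    refine huniq ?_
    have h := rep_lamA (𝒰 := 𝒰) (ψ := ψ) (algebraMap ℂ (MonoidAlgebra ℂ G) c)
    rwa [AlgHom.commutes, AlgHom.commutes] at h
  refine ⟨
    { toFun := π
      map_one' := by
        have h := hone 1
        rwa [map_one, map_one] at h
      map_mul' := fun T S => huniq (rep_mul (hπ T) (hπ S))
      map_zero' := by
        have h := hone 0
        rwa [map_zero, map_zero] at h
      map_add' := fun T S => huniq (rep_add (hπ T) (hπ S))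
      commutes' := hone
      map_star' := fun T => huniq (rep_star hs (hπ T)) }, fun T => ?_, fun g => ?_⟩
  · exact rep_tr hfree (hπ T)
  · refine huniq ?_
    have h := rep_lamA (𝒰 := 𝒰) (ψ := ψ) (MonoidAlgebra.single g 1)
    rwa [lamA_single, PhU_single, one_smul, one_smul] at h

end ext

end Pool.Agent.OGP
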