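import Pool.Agent.OGP.OA.Bridge

/-!
# OGP, operator algebra part: existential embeddings

`LU 𝒱` is the ultrapower of `L(F_2)`, `MU 𝒰` the ultraproduct of the matrix algebras.  An embedding
is a unital trace-preserving (hence injective) *-homomorphism; an embedding `π : L(F_2) → MU 𝒰` is
existential if there are an ultrafilter `𝒱` on some set and an embedding `θ : MU 𝒰 → LU 𝒱` such that
`θ ∘ π` is the diagonal embedding.
-/

open Filter Topology

universe u

namespace Pool.Agent.OGP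

/-- The tracial ultrapower of `L(F_2)`. -/
abbrev LU {I : Type u} (𝒱 : Ultrafilter I) : Type u := TU (fun _ : I => LF2) 𝒱

/-- A unital *-homomorphism `π : L(F_2) → MU 𝒰` is an embedding if it is trace preserving and
injective. -/
def IsEmb {𝒰 : Ultrafilter ℕ} (π : LF2 →⋆ₐ[ℂ] MU 𝒰) : Prop :=
  (∀ x, MU.tr (π x) = TrAlg.tau x) ∧ Function.Injective π

/-- An embedding `π : L(F_2) → MU 𝒰` is existential. -/
def IsExistential {𝒰 : Ultrafilter ℕ} (π : LF2 →⋆ₐ[ℂ] MU 𝒰) : Prop :=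
  ∃ (I : Type u) (𝒱 : Ultrafilter I) (θ : MU 𝒰 →⋆ₐ[ℂ] LU 𝒱),
    (∀ x, TU.tr _ 𝒱 (θ x) = MU.tr x) ∧ Function.Injective θ ∧ ∀ x, θ (π x) = diag 𝒱 LF2 x

end Pool.Agent.OGP
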