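import Pool.Agent.OGP.OA.Lay
import Pool.Agent.OGP.OA.Stmt

/-!
# OGP: comparison of the definitions of `Lay` with those of `OA`
-/

open Filter Topology
open scoped ENNReal

universe u v w

namespace Pool.Agent.OGP.Lay

section
variable {I : Type u} {A : I → Type v} [∀ i, CStarAlgebra (A i)] [∀ i, Nontrivial (A i)]
  {B : I → Type w} [∀ i, NormedRing (B i)] [∀ i, StarRing (B i)]
  [∀ i, CStarRing (B i)] [∀ i, NormedAlgebra ℂ (B i)] [∀ i, StarModule ℂ (B i)]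
  [∀ i, TrAlg (B i)]
  (e : ∀ i, A i ≃⋆ₐ[ℂ] B i) (he : ∀ i x, ‖e i x‖ = ‖x‖)
  (τ : ∀ i, Tr (A i)) (hτ : ∀ i x, (τ i).t x = TrAlg.tau (e i x)) (𝒰 : Ultrafilter I)

omit [∀ i, Nontrivial (A i)] in
theorem at_bdd (x : Lay.BF A) : ∃ C : ℝ, ∀ i, ‖x.at i‖ ≤ C := by
  obtain ⟨C, hC⟩ := memℓp_infty_iff.1 (Subtype.prop (p := fun f : PreLp A => Memℓp f ∞) x)
  exact ⟨C, fun i => hC ⟨i, rfl⟩⟩

omit [∀ i, Nontrivial (A i)] in
theorem mk_surj (f : ∀ i, A i) (h : ∃ C : ℝ, ∀ i, ‖f i‖ ≤ C) :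
    ∃ x : Lay.BF A, ∀ i, x.at i = f i := by
  obtain ⟨C, hC⟩ := h
  exact ⟨BF.mk f (memℓp_infty ⟨C, by rintro _ ⟨i, rfl⟩; exact hC i⟩), fun i => rfl⟩

omit [∀ i, Nontrivial (A i)] in
theorem BF.ext {x y : Lay.BF A} (h : ∀ i, x.at i = y.at i) : x = y := by
  apply Subtype.ext
  funext i
  exact h i

/-- The comparison map on bounded families. -/
def fwd : Lay.BF A →ₐ[ℂ] Pool.Agent.OGP.BF B where
  toFun x := ⟨fun i => e i (x.at i), by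
    obtain ⟨C, hC⟩ := at_bdd x
    exact ⟨C, fun i => (he i _).trans_le (hC i)⟩⟩
  map_one' := Subtype.ext (funext fun i => map_one (e i))
  map_mul' x y := Subtype.ext (funext fun i => map_mul (e i) _ _)
  map_zero' := Subtype.ext (funext fun i => map_zero (e i))
  map_add' x y := Subtype.ext (funext fun i => map_add (e i) _ _)
  commutes' c := Subtype.ext (funext fun i => by
    exact (AlgHomClass.commutes (e i) c))

omit [∀ i, TrAlg (B i)] in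
theorem fwd_apply (x : Lay.BF A) (i : I) :
    (fwd e he x : ∀ i, B i) i = e i (x.at i) := rfl

omit [∀ i, TrAlg (B i)] in
theorem fwd_star (x : Lay.BF A) : fwd e he (star x) = star (fwd e he x) :=
  Subtype.ext (funext fun i => map_star (e i) _)

omit [∀ i, TrAlg (B i)] in
theorem fwd_surjective : Function.Surjective (fwd e he) := by
  intro y
  obtain ⟨C, hC⟩ := y.2
  obtain ⟨x, hx⟩ := mk_surj (A := A) (fun i => (e i).symm ((y : ∀ i, B i) i))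
    ⟨C, fun i => by
      have h := he i ((e i).symm ((y : ∀ i, B i) i))
      rw [StarAlgEquiv.apply_symm_apply] at h
      rw [← h]
      exact hC i⟩
  refine ⟨x, Subtype.ext (funext fun i => ?_)⟩
  rw [fwd_apply, hx, StarAlgEquiv.apply_symm_apply]

include hτ in
theorem nrel_iff (x y : Lay.BF A) :
    nrel τ 𝒰 x y ↔ TU.mk B 𝒰 (fwd e he x) = TU.mk B 𝒰 (fwd e he y) := by
  rw [TU.mk_eq_iff]
  have h : ∀ i, (τ i).sq (x.at i) (y.at i) =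
      ((two (e i (x.at i) - e i (y.at i)) ^ 2 : ℝ) : ℂ) := fun i => by
    unfold Tr.sq
    rw [hτ, map_mul, map_star, map_sub, tau_eq]
  unfold nrel
  simp only [h, fwd_apply]
  constructor
  · intro h1
    have h2 := h1.norm
    simp only [norm_zero, Complex.norm_real, Real.norm_eq_abs, abs_pow] at h2
    have h3 := h2.sqrt
    simp only [Real.sqrt_zero] at h3
    refine h3.congr fun i => ?_
    rw [abs_of_nonneg (two_nonneg _), Real.sqrt_sq (two_nonneg _)]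
  · intro h1
    have h2 := h1.pow 2
    have h3 := (Complex.continuous_ofReal.tendsto _).comp h2
    rw [zero_pow two_ne_zero, Complex.ofReal_zero] at h3
    exact h3

theorem cl_surjective : Function.Surjective (cl τ 𝒰) := RingQuot.mkAlgHom_surjective ℂ _

theorem cl_mk (x : Lay.BF A) : cl τ 𝒰 x = (⟨Quot.mk _ x⟩ : RingQuot (nrel τ 𝒰)) := by
  unfold cl
  simp only [RingQuot.mkAlgHom_def, RingQuot.mkRingHom_def]
  rfl

theorem star_cl (x : Lay.BF A) : star (cl τ 𝒰 x) = cl τ 𝒰 (star x) := by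
  rw [cl_mk, cl_mk]
  rfl

/-- The comparison map, as an algebra homomorphism. -/
noncomputable def psi0 : UP τ 𝒰 →ₐ[ℂ] TU B 𝒰 :=
  (RingQuot.liftAlgHom ℂ ⟨(TU.mk B 𝒰).comp (fwd e he),
    fun x y h => (nrel_iff e he τ hτ 𝒰 x y).1 h⟩ : RingQuot (nrel τ 𝒰) →ₐ[ℂ] TU B 𝒰)

theorem psi0_cl (x : Lay.BF A) :
    psi0 e he τ hτ 𝒰 (cl τ 𝒰 x) = TU.mk B 𝒰 (fwd e he x) :=
  RingQuot.liftAlgHom_mkAlgHom_apply ℂ _ _ _

/-- The comparison map. -/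
noncomputable def psi : UP τ 𝒰 →⋆ₐ[ℂ] TU B 𝒰 where
  __ := psi0 e he τ hτ 𝒰
  map_star' x := by
    obtain ⟨x, rfl⟩ := cl_surjective τ 𝒰 x
    change psi0 e he τ hτ 𝒰 (star (cl τ 𝒰 x)) = star (psi0 e he τ hτ 𝒰 (cl τ 𝒰 x))
    rw [star_cl, psi0_cl, psi0_cl, fwd_star, TU.star_mk]

theorem psi_cl (x : Lay.BF A) :
    psi e he τ hτ 𝒰 (cl τ 𝒰 x) = TU.mk B 𝒰 (fwd e he x) := psi0_cl e he τ hτ 𝒰 x

theorem psi_bijective : Function.Bijective (psi e he τ hτ 𝒰) := by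
  constructor
  · intro x y h
    obtain ⟨x, rfl⟩ := cl_surjective τ 𝒰 x
    obtain ⟨y, rfl⟩ := cl_surjective τ 𝒰 y
    rw [psi_cl, psi_cl] at h
    exact RingQuot.mkAlgHom_rel ℂ ((nrel_iff e he τ hτ 𝒰 x y).2 h)
  · intro y
    obtain ⟨y, rfl⟩ := TU.mk_surjective B 𝒰 y
    obtain ⟨x, rfl⟩ := fwd_surjective e he y
    exact ⟨cl τ 𝒰 x, psi_cl e he τ hτ 𝒰 x⟩

/-- The comparison isomorphism. -/
noncomputable def equ : UP τ 𝒰 ≃⋆ₐ[ℂ] TU B 𝒰 :=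
  StarAlgEquiv.ofBijective (psi e he τ hτ 𝒰) (psi_bijective e he τ hτ 𝒰)

theorem equ_cl (x : Lay.BF A) :
    equ e he τ hτ 𝒰 (cl τ 𝒰 x) = TU.mk B 𝒰 (fwd e he x) := psi_cl e he τ hτ 𝒰 x

theorem equ_symm (x : Lay.BF A) :
    (equ e he τ hτ 𝒰).symm (TU.mk B 𝒰 (fwd e he x)) = cl τ 𝒰 x := by
  rw [← equ_cl e he τ hτ 𝒰 x, StarAlgEquiv.symm_apply_apply]

end

/-! ### The two algebras -/

open scoped Matrix.Norms.L2Operator

theorem mem_LS_iff (T : Op) :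
    T ∈ LS ↔ T ∈ (LG (FreeGroup (Fin 2)) : StarSubalgebra ℂ Op) := by
  rw [LS_eq]
  exact Iff.rfl

/-- The comparison of the two definitions of the free group factor. -/
noncomputable def eL : LF ≃⋆ₐ[ℂ] LF2 where
  toFun x := ⟨op x, (mem_LS_iff _).1 x.2⟩
  invFun x := ⟨x.1, (mem_LS_iff _).2 x.2⟩
  left_inv _ := rfl
  right_inv _ := rfl
  map_mul' _ _ := rfl
  map_add' _ _ := rfl
  map_star' _ := rfl
  map_smul' _ _ := rfl

theorem norm_eL (x : LF) : ‖eL x‖ = ‖x‖ := rfl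

theorem tau_eL (x : LF) : trL.t x = TrAlg.tau (eL x) := by
  change inner ℂ dl1 (ap (op x) dl1) = _
  rw [dl1_eq]
  rfl

theorem eL_el0 : eL (el (FreeGroup.of 0)) = la := by
  apply Subtype.ext
  refine ContinuousLinearMap.ext fun ξ => lp.ext (funext fun h => ?_)
  exact (exists_el (FreeGroup.of 0)).choose_spec ξ h

theorem eL_el1 : eL (el (FreeGroup.of 1)) = lb := by
  apply Subtype.ext
  refine ContinuousLinearMap.ext fun ξ => lp.ext (funext fun h => ?_)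
  exact (exists_el (FreeGroup.of 1)).choose_spec ξ h

/-- The comparison of the two definitions of the matrix algebras. -/
noncomputable def eM (n : ℕ) : Mat n ≃⋆ₐ[ℂ] Matrix (Fin (n + 1)) (Fin (n + 1)) ℂ where
  toFun x := x
  invFun x := x
  left_inv _ := rfl
  right_inv _ := rfl
  map_mul' _ _ := rfl
  map_add' _ _ := rfl
  map_star' _ := rfl
  map_smul' _ _ := rfl

theorem norm_eM (n : ℕ) (x : Mat n) : ‖eM n x‖ = ‖x‖ := rfl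

theorem tau_eM (n : ℕ) (x : Mat n) : (trM n).t x = TrAlg.tau (eM n x) := rfl

/-- The comparison of the two matrix ultraproducts. -/
noncomputable def EM (𝒰 : Ultrafilter ℕ) : Lay.MU 𝒰 ≃⋆ₐ[ℂ] Pool.Agent.OGP.MU 𝒰 :=
  equ eM norm_eM trM tau_eM 𝒰

theorem EM_cl (𝒰 : Ultrafilter ℕ) (x : Lay.BF Mat) :
    EM 𝒰 (cl trM 𝒰 x) = MU.mk 𝒰 (fwd eM norm_eM x) := equ_cl eM norm_eM trM tau_eM 𝒰 x

theorem EM_clU (𝒰 : Ultrafilter ℕ) (U : ∀ n : ℕ, UG (Fin (n + 1))) :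
    EM 𝒰 (clU 𝒰 U) = MU.cls 𝒰 U := EM_cl 𝒰 _

theorem tendsto_EM (𝒰 : Ultrafilter ℕ) (x : Lay.BF Mat) :
    Tendsto (fun n => tM n (x.at n)) 𝒰 (𝓝 (MU.tr (EM 𝒰 (cl trM 𝒰 x)))) := by
  rw [EM_cl]
  exact MU.tendsto_tr 𝒰 _

/-- The comparison of the two ultrapowers of the free group factor. -/
noncomputable def EL {I : Type u} (𝒱 : Ultrafilter I) : Lay.LU 𝒱 ≃⋆ₐ[ℂ] Pool.Agent.OGP.LU 𝒱 :=
  equ (fun _ : I => eL) (fun _ => norm_eL) (fun _ => trL) (fun _ => tau_eL) 𝒱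

theorem EL_cl {I : Type u} (𝒱 : Ultrafilter I) (x : Lay.BF fun _ : I => LF) :
    EL 𝒱 (cl (fun _ => trL) 𝒱 x) = TU.mk _ 𝒱 (fwd (fun _ : I => eL) (fun _ => norm_eL) x) :=
  equ_cl (fun _ : I => eL) (fun _ => norm_eL) (fun _ => trL) (fun _ => tau_eL) 𝒱 x

theorem EL_clC {I : Type u} (𝒱 : Ultrafilter I) (x : LF) :
    EL 𝒱 (clC 𝒱 x) = diag 𝒱 LF2 (eL x) := EL_cl 𝒱 _

theorem tendsto_EL {I : Type u} (𝒱 : Ultrafilter I) (x : Lay.BF fun _ : I => LF) :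
    Tendsto (fun i => tL (x.at i)) 𝒱 (𝓝 (TU.tr _ 𝒱 (EL 𝒱 (cl (fun _ => trL) 𝒱 x)))) := by
  rw [EL_cl]
  have h := TU.tendsto_tr _ 𝒱 (fwd (fun _ : I => eL) (fun _ => norm_eL) x)
  refine h.congr fun i => ?_
  exact (tau_eL _).symm

/-! ### Embeddings -/

/-- Existence of the embedding. -/
theorem exists_new {𝒰 : Ultrafilter ℕ} {U V : ∀ n : ℕ, UG (Fin (n + 1))}
    {π : LF2 →⋆ₐ[ℂ] Pool.Agent.OGP.MU 𝒰} (hπ : Pool.Agent.OGP.IsEmb π)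
    (ha : π la = MU.cls 𝒰 U) (hb : π lb = MU.cls 𝒰 V) :
    ∃ π : LF →⋆ₐ[ℂ] Lay.MU 𝒰, Lay.IsEmb π ∧ π (el (FreeGroup.of 0)) = clU 𝒰 U ∧
      π (el (FreeGroup.of 1)) = clU 𝒰 V := by
  refine ⟨((EM 𝒰).symm : Pool.Agent.OGP.MU 𝒰 →⋆ₐ[ℂ] Lay.MU 𝒰).comp
    (π.comp (eL : LF →⋆ₐ[ℂ] LF2)), ⟨?_, ?_⟩, ?_, ?_⟩
  · exact (EM 𝒰).symm.injective.comp (hπ.2.comp eL.injective)
  · intro x y h
    have h1 : π (eL x) = EM 𝒰 (cl trM 𝒰 y) := by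
      rw [← h]
      exact ((EM 𝒰).apply_symm_apply _).symm
    have h2 := tendsto_EM 𝒰 y
    rw [← h1, hπ.1, ← tau_eL] at h2
    exact h2
  · change (EM 𝒰).symm (π (eL _)) = _
    rw [eL_el0, ha, ← EM_clU, StarAlgEquiv.symm_apply_apply]
  · change (EM 𝒰).symm (π (eL _)) = _
    rw [eL_el1, hb, ← EM_clU, StarAlgEquiv.symm_apply_apply]

/-- From an existential embedding to a homomorphism of the ultraproducts. -/
theorem exists_theta {𝒰 : Ultrafilter ℕ} {U V : ∀ n : ℕ, UG (Fin (n + 1))}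
    {π : LF →⋆ₐ[ℂ] Lay.MU 𝒰} (ha : π (el (FreeGroup.of 0)) = clU 𝒰 U)
    (hb : π (el (FreeGroup.of 1)) = clU 𝒰 V) (h : Lay.IsExistential.{u} π) :
    ∃ (I : Type u) (𝒱 : Ultrafilter I) (θ : Pool.Agent.OGP.MU 𝒰 →⋆ₐ[ℂ] Pool.Agent.OGP.LU 𝒱),
      (∀ x, TU.tr _ 𝒱 (θ x) = MU.tr x) ∧ θ (MU.cls 𝒰 U) = diag 𝒱 LF2 la ∧
      θ (MU.cls 𝒰 V) = diag 𝒱 LF2 lb := by
  obtain ⟨I, 𝒱, θ, -, htr, hθ⟩ := h
  refine ⟨I, 𝒱, ((EL 𝒱 : Lay.LU 𝒱 →⋆ₐ[ℂ] Pool.Agent.OGP.LU 𝒱).comp θ).comp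
    ((EM 𝒰).symm : Pool.Agent.OGP.MU 𝒰 →⋆ₐ[ℂ] Lay.MU 𝒰), ?_, ?_, ?_⟩
  · intro x
    obtain ⟨x, rfl⟩ := (EM 𝒰).surjective x
    obtain ⟨x, rfl⟩ := cl_surjective trM 𝒰 x
    obtain ⟨y, hy⟩ := cl_surjective (fun _ : I => trL) 𝒱 (θ (cl trM 𝒰 x))
    change TU.tr _ 𝒱 (EL 𝒱 (θ ((EM 𝒰).symm (EM 𝒰 (cl trM 𝒰 x))))) = _
    rw [StarAlgEquiv.symm_apply_apply, ← hy]
    exact tendsto_nhds_unique (tendsto_EL 𝒱 y) (htr x y hy.symm _ (tendsto_EM 𝒰 x))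
  · change EL 𝒱 (θ ((EM 𝒰).symm _)) = _
    rw [← EM_clU, StarAlgEquiv.symm_apply_apply, ← ha, hθ, EL_clC, eL_el0]
  · change EL 𝒱 (θ ((EM 𝒰).symm _)) = _
    rw [← EM_clU, StarAlgEquiv.symm_apply_apply, ← hb, hθ, EL_clC, eL_el1]

end Pool.Agent.OGP.Lay
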