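import Mathlib

/-!
# OGP, operator algebra part: tracial algebras and their ultraproducts

`TrAlg A`: a faithful tracial state on a C*-algebra `A` (with the inequality
`‖x y‖₂ ≤ ‖x‖ ‖y‖₂`), `two x = ‖x‖₂ = τ(x* x)^{1/2}`.  `TU 𝒰 A` is the tracial ultraproduct of the
family `A`: norm bounded families modulo those with `lim ‖x i‖₂ = 0` along `𝒰`, a *-algebra with
trace `TU.tr`, the limit of the traces.
-/

open Filter Topology

namespace Pool.Agent.OGP

/-- A faithful tracial state `tau` on a C*-algebra `A`. -/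
class TrAlg (A : Type*) [NormedRing A] [StarRing A] [CStarRing A] [NormedAlgebra ℂ A]
    [StarModule ℂ A] where
  tau : A →ₗ[ℂ] ℂ
  tau_one : tau 1 = 1
  tau_star : ∀ x, tau (star x) = star (tau x)
  tau_comm : ∀ x y, tau (x * y) = tau (y * x)
  tau_pos : ∀ x, 0 ≤ (tau (star x * x)).re
  tau_faithful : ∀ x, tau (star x * x) = 0 → x = 0
  tau_mul_le : ∀ x y, (tau (star (x * y) * (x * y))).re ≤ ‖x‖ ^ 2 * (tau (star y * y)).re

section two

variable {A : Type*} [NormedRing A] [StarRing A] [CStarRing A] [NormedAlgebra ℂ A]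
  [StarModule ℂ A] [TrAlg A]

open TrAlg

/-- The 2-norm `‖x‖₂ = τ(x* x)^{1/2}`. -/
noncomputable def two (x : A) : ℝ := Real.sqrt (tau (star x * x)).re

/-- The semi-inner product `τ(x* y)`. -/
@[reducible] noncomputable def trCore : PreInnerProductSpace.Core ℂ A where
  inner x y := tau (star x * y)
  conj_inner_symm x y := by
    change star (tau (star y * x)) = tau (star x * y)
    rw [← tau_star, star_mul, star_star]
  re_inner_nonneg x := tau_pos x
  add_left x y z := by rw [star_add, add_mul, map_add]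
  smul_left x y r := by
    rw [star_smul, smul_mul_assoc, map_smul]; rfl

theorem two_nonneg (x : A) : 0 ≤ two x := Real.sqrt_nonneg _

theorem two_sq (x : A) : two x ^ 2 = (tau (star x * x)).re := Real.sq_sqrt (tau_pos x)

theorem tau_im (x : A) : (tau (star x * x)).im = 0 := by
  have h := tau_star (star x * x)
  rw [star_mul, star_star] at h
  have h2 := congrArg Complex.im h
  change _ = ((starRingEnd ℂ) _).im at h2
  rw [Complex.conj_im] at h2
  linarith

theorem tau_eq (x : A) : tau (star x * x) = ((two x ^ 2 : ℝ) : ℂ) := by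
  apply Complex.ext
  · rw [two_sq, Complex.ofReal_re]
  · rw [tau_im, Complex.ofReal_im]

theorem two_zero : two (0 : A) = 0 := by
  unfold two; simp

theorem two_one : two (1 : A) = 1 := by
  unfold two
  rw [star_one, one_mul, tau_one]
  simp

theorem two_eq_zero {x : A} (h : two x = 0) : x = 0 := by
  apply tau_faithful
  rw [tau_eq, h]
  simp

theorem two_smul' (c : ℂ) (x : A) : two (c • x) = ‖c‖ * two x := by
  unfold two
  rw [star_smul, smul_mul_smul_comm, map_smul, smul_eq_mul]
  have h : star c * c = ((‖c‖ ^ 2 : ℝ) : ℂ) := by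
    have := Complex.conj_mul' c
    push_cast
    exact this
  rw [h, Complex.re_ofReal_mul, Real.sqrt_mul (by positivity), Real.sqrt_sq (norm_nonneg c)]

theorem two_neg (x : A) : two (-x) = two x := by
  unfold two
  rw [star_neg, neg_mul_neg]

theorem two_star (x : A) : two (star x) = two x := by
  unfold two
  rw [star_star, tau_comm]

theorem two_sub_comm (x y : A) : two (x - y) = two (y - x) := by
  rw [← two_neg, neg_sub]

theorem norm_tau_mul_le (x y : A) : ‖tau (star x * y)‖ ≤ two x * two y := by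
  let _ : PreInnerProductSpace.Core ℂ A := trCore
  have h := InnerProductSpace.Core.norm_inner_le_norm (𝕜 := ℂ) x y
  exact h

theorem norm_tau_le (x : A) : ‖tau x‖ ≤ two x := by
  have h := norm_tau_mul_le (1 : A) x
  rwa [star_one, one_mul, two_one, one_mul] at h

theorem two_add_le (x y : A) : two (x + y) ≤ two x + two y := by
  have hx := two_nonneg x
  have hy := two_nonneg y
  refine Real.sqrt_le_iff.2 ⟨by positivity, ?_⟩
  rw [star_add, add_mul, mul_add, mul_add, map_add, map_add, map_add, Complex.add_re,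
    Complex.add_re, Complex.add_re, ← two_sq, ← two_sq]
  have h1 : (tau (star x * y)).re ≤ two x * two y :=
    (Complex.re_le_norm _).trans (norm_tau_mul_le x y)
  have h2 : (tau (star y * x)).re ≤ two y * two x :=
    (Complex.re_le_norm _).trans (norm_tau_mul_le y x)
  nlinarith

theorem two_sub_le (x y : A) : two (x - y) ≤ two x + two y := by
  rw [sub_eq_add_neg, ← two_neg y]
  exact two_add_le x (-y)

theorem two_sub_le_sub (x y z : A) : two (x - z) ≤ two (x - y) + two (y - z) := by
  have := two_add_le (x - y) (y - z)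
  rwa [sub_add_sub_cancel] at this

theorem abs_two_sub_two_le (x y : A) : |two x - two y| ≤ two (x - y) := by
  have h1 := two_add_le (x - y) y
  have h2 := two_add_le (y - x) x
  rw [sub_add_cancel] at h1 h2
  rw [two_sub_comm y x] at h2
  rw [abs_le]
  constructor <;> linarith

theorem two_mul_le (x y : A) : two (x * y) ≤ ‖x‖ * two y := by
  refine Real.sqrt_le_iff.2 ⟨mul_nonneg (norm_nonneg _) (two_nonneg _), ?_⟩
  rw [mul_pow, two_sq]
  exact tau_mul_le x y

theorem two_mul_le' (x y : A) : two (x * y) ≤ two x * ‖y‖ := by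
  rw [← two_star, star_mul]
  refine (two_mul_le _ _).trans ?_
  rw [norm_star, two_star, mul_comm]

theorem two_le_norm (x : A) : two x ≤ ‖x‖ := by
  have h := two_mul_le x 1
  rwa [mul_one, two_one, mul_one] at h

end two

/-! ### Tracial ultraproducts -/

section TU

variable {I : Type*} (A : I → Type*) [∀ i, NormedRing (A i)] [∀ i, StarRing (A i)]
  [∀ i, CStarRing (A i)] [∀ i, NormedAlgebra ℂ (A i)] [∀ i, StarModule ℂ (A i)]

/-- The *-algebra of norm bounded families. -/
def BF : StarSubalgebra ℂ (∀ i, A i) where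
  carrier := {x | ∃ C : ℝ, ∀ i, ‖x i‖ ≤ C}
  mul_mem' := by
    rintro x y ⟨C, hC⟩ ⟨D, hD⟩
    refine ⟨C * D, fun i => ?_⟩
    rw [Pi.mul_apply]
    exact (norm_mul_le _ _).trans (mul_le_mul (hC i) (hD i) (norm_nonneg _)
      ((norm_nonneg _).trans (hC i)))
  add_mem' := by
    rintro x y ⟨C, hC⟩ ⟨D, hD⟩
    refine ⟨C + D, fun i => ?_⟩
    rw [Pi.add_apply]
    exact (norm_add_le _ _).trans (add_le_add (hC i) (hD i))
  algebraMap_mem' r := by
    refine ⟨‖r‖ * 1, fun i => ?_⟩
    rw [Pi.algebraMap_apply, Algebra.algebraMap_eq_smul_one]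
    refine (norm_smul_le _ _).trans ?_
    refine mul_le_mul_of_nonneg_left ?_ (norm_nonneg _)
    rcases subsingleton_or_nontrivial (A i) with h | h
    · rw [Subsingleton.elim (1 : A i) 0, norm_zero]
      exact zero_le_one
    · exact (CStarRing.norm_one).le
  star_mem' := by
    rintro x ⟨C, hC⟩
    exact ⟨C, fun i => by rw [Pi.star_apply, norm_star]; exact hC i⟩

variable (𝒰 : Ultrafilter I) [∀ i, TrAlg (A i)]

/-- Two bounded families are identified if the 2-norm of their difference tends to zero. -/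
noncomputable def nullCon : RingCon (BF A) where
  r x y := Tendsto (fun i => two ((x : ∀ i, A i) i - (y : ∀ i, A i) i)) 𝒰 (𝓝 0)
  iseqv :=
    { refl := fun x => by simp [two_zero]
      symm := fun {x y} h => by
        refine h.congr fun i => ?_
        rw [two_sub_comm]
      trans := fun {x y z} h1 h2 => by
        have h3 := h1.add h2
        rw [add_zero] at h3
        exact squeeze_zero (fun i => two_nonneg _) (fun i => two_sub_le_sub _ _ _) h3 }
  mul' := by
    rintro x y z w h1 h2
    obtain ⟨C, hC⟩ := z.2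
    obtain ⟨D, hD⟩ := y.2
    have h3 : Tendsto (fun i => two ((x : ∀ i, A i) i - (y : ∀ i, A i) i) * C +
        D * two ((z : ∀ i, A i) i - (w : ∀ i, A i) i)) 𝒰 (𝓝 0) := by
      have h4 := (h1.mul_const C).add (h2.const_mul D)
      simpa using h4
    refine squeeze_zero (fun i => two_nonneg _) (fun i => ?_) h3
    change two ((x : ∀ i, A i) i * (z : ∀ i, A i) i - (y : ∀ i, A i) i * (w : ∀ i, A i) i) ≤ _
    have e : (x : ∀ i, A i) i * (z : ∀ i, A i) i - (y : ∀ i, A i) i * (w : ∀ i, A i) i =
        ((x : ∀ i, A i) i - (y : ∀ i, A i) i) * (z : ∀ i, A i) i +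
        (y : ∀ i, A i) i * ((z : ∀ i, A i) i - (w : ∀ i, A i) i) := by noncomm_ring
    rw [e]
    refine (two_add_le _ _).trans (add_le_add ?_ ?_)
    · exact (two_mul_le' _ _).trans (mul_le_mul_of_nonneg_left (hC i) (two_nonneg _))
    · exact (two_mul_le _ _).trans (mul_le_mul_of_nonneg_right (hD i) (two_nonneg _))
  add' := by
    rintro x y z w h1 h2
    have h3 := h1.add h2
    rw [add_zero] at h3
    refine squeeze_zero (fun i => two_nonneg _) (fun i => ?_) h3
    change two (((x : ∀ i, A i) i + (z : ∀ i, A i) i) - ((y : ∀ i, A i) i + (w : ∀ i, A i) i)) ≤ _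
    rw [add_sub_add_comm]
    exact two_add_le _ _

/-- The tracial ultraproduct of the family `A` along `𝒰`: bounded families modulo the families
tending to zero in the 2-norm. -/
def TU : Type _ := (nullCon A 𝒰).Quotient

namespace TU

noncomputable instance instRing : Ring (TU A 𝒰) := inferInstanceAs (Ring (nullCon A 𝒰).Quotient)

noncomputable instance instAlgebra : Algebra ℂ (TU A 𝒰) :=
  inferInstanceAs (Algebra ℂ (nullCon A 𝒰).Quotient)

/-- The class of a bounded family. -/
noncomputable def mk : BF A →ₐ[ℂ] TU A 𝒰 := (nullCon A 𝒰).mkₐ (α := ℂ)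

theorem mk_surjective : Function.Surjective (mk A 𝒰) := (nullCon A 𝒰).mkₐ_surjective

theorem mk_eq_iff {x y : BF A} : mk A 𝒰 x = mk A 𝒰 y ↔
    Tendsto (fun i => two ((x : ∀ i, A i) i - (y : ∀ i, A i) i)) 𝒰 (𝓝 0) :=
  (nullCon A 𝒰).eq

theorem star_resp {x y : BF A} (h : mk A 𝒰 x = mk A 𝒰 y) :
    mk A 𝒰 (star x) = mk A 𝒰 (star y) := by
  rw [mk_eq_iff] at h ⊢
  refine h.congr fun i => ?_
  change _ = two (star ((x : ∀ i, A i) i) - star ((y : ∀ i, A i) i))
  rw [← star_sub, two_star]

noncomputable instance instStar : Star (TU A 𝒰) where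
  star := Quotient.lift (fun x : BF A => mk A 𝒰 (star x)) fun _ _ h =>
    star_resp A 𝒰 ((nullCon A 𝒰).eq.2 h)

theorem star_mk (x : BF A) : star (mk A 𝒰 x) = mk A 𝒰 (star x) := rfl

noncomputable instance instStarRing : StarRing (TU A 𝒰) where
  star_involutive x := by
    obtain ⟨x, rfl⟩ := mk_surjective A 𝒰 x
    rw [star_mk, star_mk, star_star]
  star_mul x y := by
    obtain ⟨x, rfl⟩ := mk_surjective A 𝒰 x
    obtain ⟨y, rfl⟩ := mk_surjective A 𝒰 y
    rw [← map_mul, star_mk, star_mk, star_mk, star_mul, map_mul]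
  star_add x y := by
    obtain ⟨x, rfl⟩ := mk_surjective A 𝒰 x
    obtain ⟨y, rfl⟩ := mk_surjective A 𝒰 y
    rw [← map_add, star_mk, star_mk, star_mk, star_add, map_add]

instance instStarModule : StarModule ℂ (TU A 𝒰) where
  star_smul c x := by
    obtain ⟨x, rfl⟩ := mk_surjective A 𝒰 x
    rw [← map_smul, star_mk, star_mk, star_smul, map_smul]

theorem exists_tendsto_tau (x : BF A) :
    ∃ z : ℂ, Tendsto (fun i => TrAlg.tau ((x : ∀ i, A i) i)) 𝒰 (𝓝 z) := by
  obtain ⟨C, hC⟩ := x.2
  have hK : IsCompact (Metric.closedBall (0 : ℂ) C) := isCompact_closedBall _ _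
  have h := hK.ultrafilter_le_nhds (𝒰.map fun i => TrAlg.tau ((x : ∀ i, A i) i)) (by
    rw [Filter.le_principal_iff, Ultrafilter.mem_coe, Ultrafilter.mem_map]
    refine Filter.univ_mem' fun i => ?_
    refine mem_closedBall_zero_iff.2 ?_
    exact (norm_tau_le _).trans ((two_le_norm _).trans (hC i)))
  obtain ⟨z, -, hz⟩ := h
  exact ⟨z, hz⟩

/-- The trace of the ultraproduct: the limit of the traces. -/
noncomputable def tr : TU A 𝒰 → ℂ :=
  Quotient.lift (fun x : BF A => limUnder 𝒰 fun i => TrAlg.tau ((x : ∀ i, A i) i)) fun x y h => by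
    obtain ⟨z, hz⟩ := exists_tendsto_tau A 𝒰 x
    obtain ⟨w, hw⟩ := exists_tendsto_tau A 𝒰 y
    have h1 : Tendsto (fun i => two ((x : ∀ i, A i) i - (y : ∀ i, A i) i)) 𝒰 (𝓝 0) := h
    have h2 : Tendsto (fun i => TrAlg.tau ((x : ∀ i, A i) i) - TrAlg.tau ((y : ∀ i, A i) i))
        𝒰 (𝓝 0) := by
      refine squeeze_zero_norm (fun i => ?_) h1
      rw [← map_sub]
      exact norm_tau_le _
    have h3 := tendsto_nhds_unique h2 (hz.sub hw)
    change limUnder _ _ = limUnder _ _
    rw [hz.limUnder_eq, hw.limUnder_eq]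
    exact (sub_eq_zero.1 h3.symm)

theorem tendsto_tr (x : BF A) :
    Tendsto (fun i => TrAlg.tau ((x : ∀ i, A i) i)) 𝒰 (𝓝 (tr A 𝒰 (mk A 𝒰 x))) := by
  obtain ⟨z, hz⟩ := exists_tendsto_tau A 𝒰 x
  change Tendsto _ _ (𝓝 (limUnder _ _))
  rwa [hz.limUnder_eq]

/-- The 2-norms of a bounded family converge to the 2-norm of its class. -/
theorem tendsto_two (x : BF A) :
    Tendsto (fun i => two ((x : ∀ i, A i) i) ^ 2) 𝒰
      (𝓝 (tr A 𝒰 (star (mk A 𝒰 x) * mk A 𝒰 x)).re) := by
  rw [star_mk, ← map_mul]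
  have h := tendsto_tr A 𝒰 (star x * x)
  have h2 := (Complex.continuous_re.tendsto _).comp h
  refine h2.congr fun i => ?_
  rw [two_sq]
  rfl

end TU

/-- The diagonal embedding of `B` in its ultrapower. -/
noncomputable def diag (B : Type*) [NormedRing B] [StarRing B] [CStarRing B] [NormedAlgebra ℂ B]
    [StarModule ℂ B] [TrAlg B] : B →⋆ₐ[ℂ] TU (fun _ : I => B) 𝒰 where
  toFun b := TU.mk (fun _ : I => B) 𝒰 ⟨fun _ => b, ‖b‖, fun _ => le_rfl⟩
  map_one' := map_one (TU.mk (fun _ : I => B) 𝒰)
  map_mul' x y := by rw [← map_mul]; rfl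
  map_zero' := map_zero (TU.mk (fun _ : I => B) 𝒰)
  map_add' x y := by rw [← map_add]; rfl
  commutes' r := AlgHom.commutes (TU.mk (fun _ : I => B) 𝒰) r
  map_star' x := by rw [TU.star_mk]; rfl

end TU

end Pool.Agent.OGP
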