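import Pool.Agent.OGP.OA.Defs

/-!
# OGP, operator algebra part: the 2-norm of a tracial ultraproduct
-/

open Filter Topology

namespace Pool.Agent.OGP.TU

variable {I : Type*} {A : I → Type*} [∀ i, NormedRing (A i)] [∀ i, StarRing (A i)]
  [∀ i, CStarRing (A i)] [∀ i, NormedAlgebra ℂ (A i)] [∀ i, StarModule ℂ (A i)]
  {𝒰 : Ultrafilter I} [∀ i, TrAlg (A i)]

/-- The 2-norm of the ultraproduct. -/
noncomputable def nn (y : TU A 𝒰) : ℝ := Real.sqrt (tr A 𝒰 (star y * y)).re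

theorem tendsto_nn (x : BF A) :
    Tendsto (fun i => two ((x : ∀ i, A i) i)) 𝒰 (𝓝 (nn (mk A 𝒰 x))) := by
  have h := (Real.continuous_sqrt.tendsto _).comp (tendsto_two A 𝒰 x)
  refine h.congr fun i => ?_
  exact Real.sqrt_sq (two_nonneg _)

theorem nn_nonneg (y : TU A 𝒰) : 0 ≤ nn y := Real.sqrt_nonneg _

theorem nn_sq (y : TU A 𝒰) : nn y ^ 2 = (tr A 𝒰 (star y * y)).re := by
  obtain ⟨x, rfl⟩ := mk_surjective A 𝒰 y
  have h1 := tendsto_two A 𝒰 x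
  have h2 := (tendsto_nn (𝒰 := 𝒰) x).pow 2
  exact tendsto_nhds_unique h2 h1

theorem eq_of_nn {y z : TU A 𝒰} (h : nn (y - z) = 0) : y = z := by
  obtain ⟨y, rfl⟩ := mk_surjective A 𝒰 y
  obtain ⟨z, rfl⟩ := mk_surjective A 𝒰 z
  rw [← map_sub] at h
  rw [mk_eq_iff]
  have h2 := tendsto_nn (𝒰 := 𝒰) (y - z)
  rw [h] at h2
  exact h2

theorem nn_zero : nn (0 : TU A 𝒰) = 0 := by
  have h := tendsto_nn (𝒰 := 𝒰) (0 : BF A)
  rw [map_zero] at h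
  refine tendsto_nhds_unique h ?_
  refine tendsto_const_nhds.congr fun i => ?_
  exact two_zero.symm

theorem nn_add_le (y z : TU A 𝒰) : nn (y + z) ≤ nn y + nn z := by
  obtain ⟨y, rfl⟩ := mk_surjective A 𝒰 y
  obtain ⟨z, rfl⟩ := mk_surjective A 𝒰 z
  rw [← map_add]
  exact le_of_tendsto_of_tendsto' (tendsto_nn _) ((tendsto_nn _).add (tendsto_nn _))
    fun i => two_add_le _ _

theorem nn_neg (y : TU A 𝒰) : nn (-y) = nn y := by
  unfold nn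
  rw [star_neg, neg_mul_neg]

theorem nn_sub_comm (y z : TU A 𝒰) : nn (y - z) = nn (z - y) := by
  rw [← nn_neg, neg_sub]

theorem nn_sub_le_sub (x y z : TU A 𝒰) : nn (x - z) ≤ nn (x - y) + nn (y - z) := by
  have := nn_add_le (x - y) (y - z)
  rwa [sub_add_sub_cancel] at this

theorem nn_smul (c : ℂ) (y : TU A 𝒰) : nn (c • y) = ‖c‖ * nn y := by
  obtain ⟨y, rfl⟩ := mk_surjective A 𝒰 y
  rw [← map_smul]
  have h1 := tendsto_nn (𝒰 := 𝒰) (c • y)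
  have h2 := (tendsto_nn (𝒰 := 𝒰) y).const_mul ‖c‖
  refine tendsto_nhds_unique h1 (h2.congr fun i => ?_)
  exact (two_smul' c _).symm

theorem nn_star (y : TU A 𝒰) : nn (star y) = nn y := by
  obtain ⟨y, rfl⟩ := mk_surjective A 𝒰 y
  rw [star_mk]
  have h1 := tendsto_nn (𝒰 := 𝒰) (star y)
  refine tendsto_nhds_unique h1 ((tendsto_nn (𝒰 := 𝒰) y).congr fun i => ?_)
  exact (two_star _).symm

theorem nn_mk_mul_le {x : BF A} {C : ℝ} (hC : ∀ i, ‖(x : ∀ i, A i) i‖ ≤ C) (z : TU A 𝒰) :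
    nn (mk A 𝒰 x * z) ≤ C * nn z := by
  obtain ⟨z, rfl⟩ := mk_surjective A 𝒰 z
  rw [← map_mul]
  refine le_of_tendsto_of_tendsto' (tendsto_nn _) ((tendsto_nn _).const_mul C) fun i => ?_
  exact (two_mul_le _ _).trans (mul_le_mul_of_nonneg_right (hC i) (two_nonneg _))

theorem nn_mul_mk_le {x : BF A} {C : ℝ} (hC : ∀ i, ‖(x : ∀ i, A i) i‖ ≤ C) (z : TU A 𝒰) :
    nn (z * mk A 𝒰 x) ≤ nn z * C := by
  obtain ⟨z, rfl⟩ := mk_surjective A 𝒰 z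
  rw [← map_mul]
  refine le_of_tendsto_of_tendsto' (tendsto_nn _) ((tendsto_nn _).mul_const C) fun i => ?_
  exact (two_mul_le' _ _).trans (mul_le_mul_of_nonneg_left (hC i) (two_nonneg _))

/-- Multiplication by a fixed element is bounded in the 2-norm. -/
theorem exists_bound (y : TU A 𝒰) : ∃ C : ℝ, 0 < C ∧ (∀ z, nn (y * z) ≤ C * nn z) ∧
    ∀ z, nn (z * y) ≤ C * nn z := by
  obtain ⟨x, rfl⟩ := mk_surjective A 𝒰 y
  obtain ⟨C, hC⟩ := x.2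
  have hC' : ∀ i, ‖(x : ∀ i, A i) i‖ ≤ max 1 C := fun i => (hC i).trans (le_max_right _ _)
  refine ⟨max 1 C, lt_of_lt_of_le one_pos (le_max_left _ _), fun z => nn_mk_mul_le hC' z,
    fun z => ?_⟩
  rw [mul_comm (max 1 C)]
  exact nn_mul_mk_le hC' z

theorem tr_add (y z : TU A 𝒰) : tr A 𝒰 (y + z) = tr A 𝒰 y + tr A 𝒰 z := by
  obtain ⟨y, rfl⟩ := mk_surjective A 𝒰 y
  obtain ⟨z, rfl⟩ := mk_surjective A 𝒰 z
  rw [← map_add]
  have h := (tendsto_tr A 𝒰 y).add (tendsto_tr A 𝒰 z)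
  refine tendsto_nhds_unique (tendsto_tr A 𝒰 (y + z)) (h.congr fun i => ?_)
  exact (map_add TrAlg.tau _ _).symm

theorem tr_smul (c : ℂ) (y : TU A 𝒰) : tr A 𝒰 (c • y) = c * tr A 𝒰 y := by
  obtain ⟨y, rfl⟩ := mk_surjective A 𝒰 y
  rw [← map_smul]
  have h := (tendsto_tr A 𝒰 y).const_mul c
  refine tendsto_nhds_unique (tendsto_tr A 𝒰 (c • y)) (h.congr fun i => ?_)
  exact (map_smul TrAlg.tau c _).symm

theorem tr_zero : tr A 𝒰 0 = 0 := by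
  have h := tr_smul (0 : ℂ) (0 : TU A 𝒰)
  rwa [zero_smul, zero_mul] at h

theorem tr_sub (y z : TU A 𝒰) : tr A 𝒰 (y - z) = tr A 𝒰 y - tr A 𝒰 z := by
  rw [sub_eq_add_neg, tr_add, ← neg_one_smul ℂ z, tr_smul]
  ring

theorem norm_tr_le (y : TU A 𝒰) : ‖tr A 𝒰 y‖ ≤ nn y := by
  obtain ⟨y, rfl⟩ := mk_surjective A 𝒰 y
  exact le_of_tendsto_of_tendsto' (tendsto_tr A 𝒰 y).norm (tendsto_nn _) fun i => norm_tau_le _

end Pool.Agent.OGP.TU
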