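import Pool.Agent.OGP.OA.LG
import Pool.Agent.OGP.OA.Mat

/-!
# OGP: the definitions used in the final statement

* `BF A`: the C*-algebra of norm bounded families `(x_i)`, `x_i ∈ A i` (Mathlib's `lp A ∞`).
* `UP τ 𝒰`: the tracial ultraproduct along `𝒰`: the quotient of `BF A` which identifies `x` and `y`
  if `lim τ_i((x_i - y_i)* (x_i - y_i)) = 0`; `cl τ 𝒰 x` is the class of the family `x`.
* `LF`: the von Neumann algebra of the free group on two generators (the double commutant of the
  left translations on `ℓ²`), `tL` its trace, `el g` the element of it given by the group element `g`.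
* `Mat n`: the algebra of `n + 1` by `n + 1` complex matrices with the operator norm, `tM` the
  normalised trace.
* `MU 𝒰`: the tracial ultraproduct of the matrix algebras, `LU 𝒱`: the tracial ultrapower of `LF`.
* `IsEmb`: embedding; `IsExistential`: existential embedding.
-/

open Filter Topology MeasureTheory
open scoped ENNReal InnerProductSpace

universe u v

namespace Pool.Agent.OGP.Lay

/-! ### Tracial ultraproducts -/

/-- A trace on a C*-algebra. -/
structure Tr (A : Type v) [CStarAlgebra A] where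
  /-- the trace -/
  t : A →ₗ[ℂ] ℂ
  comm : ∀ x y, t (x * y) = t (y * x)

/-- The square of the distance in the 2-norm, `τ((x - y)* (x - y))`. -/
noncomputable def Tr.sq {A : Type v} [CStarAlgebra A] (τ : Tr A) (x y : A) : ℂ :=
  τ.t (star (x - y) * (x - y))

theorem Tr.sq_star {A : Type v} [CStarAlgebra A] (τ : Tr A) (x y : A) :
    τ.sq (star x) (star y) = τ.sq x y := by
  unfold Tr.sq
  rw [← star_sub, star_star, τ.comm]

section
variable {I : Type u} (A : I → Type v) [∀ i, CStarAlgebra (A i)]

/-- The C*-algebra of norm bounded families. -/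
def BF : Type (max u v) := lp A ∞

variable [∀ i, Nontrivial (A i)]

noncomputable instance instRingBF : Ring (BF A) := lp.inftyRing

noncomputable instance instAlgebraBF : Algebra ℂ (BF A) := (inferInstance : Algebra ℂ (lp A ∞))

noncomputable instance instStarRingBF : StarRing (BF A) := lp.inftyStarRing

variable {A}

omit [∀ i, Nontrivial (A i)] in
/-- The component of a family. -/
def BF.at (x : BF A) (i : I) : A i := Subtype.val (α := PreLp A) x i

/-- The family with given components. -/
def BF.mk (x : ∀ i, A i) (h : Memℓp x ∞) : BF A := Subtype.mk (α := PreLp A) x h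

variable (τ : ∀ i, Tr (A i)) (𝒰 : Ultrafilter I)

/-- Two norm bounded families `x`, `y` are identified if the limit of
`τ_i((x_i - y_i)* (x_i - y_i))` along `𝒰` is zero. -/
def nrel (x y : BF A) : Prop := Tendsto (fun i => (τ i).sq (x.at i) (y.at i)) 𝒰 (𝓝 0)

theorem nrel_star (x y : BF A) (h : nrel τ 𝒰 x y) : nrel τ 𝒰 (star x) (star y) :=
  h.congr fun i => ((τ i).sq_star _ _).symm

/-- The tracial ultraproduct: the ring quotient of the algebra of norm bounded families by the
relation `nrel`. -/
def UP : Type (max u v) := RingQuot (nrel τ 𝒰)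

noncomputable instance instRingUP : Ring (UP τ 𝒰) := RingQuot.instRing (nrel τ 𝒰)

noncomputable instance instAlgebraUP : Algebra ℂ (UP τ 𝒰) := RingQuot.instAlgebra (nrel τ 𝒰)

noncomputable instance instStarUP : Star (UP τ 𝒰) :=
  (@RingQuot.starRing (BF A) _ (instStarRingBF A) (nrel τ 𝒰) (nrel_star τ 𝒰)).toStar

/-- The class of a bounded family. -/
noncomputable def cl (x : BF A) : UP τ 𝒰 := RingQuot.mkAlgHom ℂ (nrel τ 𝒰) x

end

/-! ### The free group factor -/

/-- The Hilbert space `ℓ²` of the free group on two generators. -/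
def Hl : Type := lp (fun _ : FreeGroup (Fin 2) => ℂ) 2

noncomputable instance : NormedAddCommGroup Hl := lp.normedAddCommGroup
noncomputable instance : InnerProductSpace ℂ Hl := lp.instInnerProductSpace
instance : CompleteSpace Hl := lp.completeSpace

/-- The coordinates. -/
def co (ξ : Hl) : FreeGroup (Fin 2) → ℂ := Subtype.val (α := PreLp fun _ : FreeGroup (Fin 2) => ℂ) ξ

/-- The basis vector of the unit element. -/
noncomputable def dl1 : Hl := lp.single 2 (1 : FreeGroup (Fin 2)) (1 : ℂ)

/-- The bounded operators on it. -/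
noncomputable def Op : Type := Hl →L[ℂ] Hl

noncomputable instance instCOp : CStarAlgebra Op := (inferInstance : CStarAlgebra (Hl →L[ℂ] Hl))

/-- Application of an operator. -/
noncomputable def ap (T : Op) (ξ : Hl) : Hl :=
  DFunLike.coe (F := Hl →L[ℂ] Hl) T ξ

/-- The operators of left translation: `(S ξ)(h) = ξ(g⁻¹ h)`. -/
def lefts : Set Op := {S | ∃ g, ∀ ξ h, co (ap S ξ) h = co ξ (g⁻¹ * h)}

/-- The double commutant of the left translations (Mathlib's centralizer of a set `s` in a star
algebra is the commutant of `s ∪ s*`). -/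
noncomputable def LS : StarSubalgebra ℂ Op :=
  StarSubalgebra.centralizer ℂ (StarSubalgebra.centralizer ℂ lefts : Set Op)

theorem isClosed_LS : IsClosed (LS : Set Op) := Set.isClosed_centralizer _

/-- The free group factor `L(F_2)`. -/
def LF : Type := LS

noncomputable instance instCLF : CStarAlgebra LF :=
  StarSubalgebra.cstarAlgebra LS (h_closed := isClosed_LS)

theorem dl1_eq : dl1 = dl (1 : FreeGroup (Fin 2)) := by
  unfold dl1 dl
  congr
  exact Subsingleton.elim _ _

theorem lefts_eq : (lefts : Set Op) = (Set.range (lam (FreeGroup (Fin 2))) : Set _) := by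
  ext S
  constructor
  · rintro ⟨g, hg⟩
    refine ⟨g, ContinuousLinearMap.ext fun ξ => lp.ext (funext fun h => ?_)⟩
    exact (hg ξ h).symm
  · rintro ⟨g, rfl⟩
    exact ⟨g, fun ξ h => rfl⟩

theorem LS_eq : LS = (LG (FreeGroup (Fin 2)) : StarSubalgebra ℂ Op) := by
  unfold LS LG
  rw [lefts_eq]
  rfl

instance instNLF : Nontrivial LF := by
  refine ⟨0, 1, fun h => ?_⟩
  have h1 : (0 : Op) = 1 := congrArg Subtype.val h
  have h2 : (0 : Hl) = dl (1 : FreeGroup (Fin 2)) :=
    congrArg (fun T : Op => (ap T (dl (1 : FreeGroup (Fin 2))) : Hl)) h1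
  have h3 := norm_dl (1 : FreeGroup (Fin 2))
  rw [← h2] at h3
  exact zero_ne_one ((norm_zero (E := Hl)).symm.trans h3)

/-- The elements of the free group factor as operators. -/
noncomputable def op (T : LF) : Op := Subtype.val (p := (· ∈ LS)) T

/-- The canonical trace `⟨δ_1, T δ_1⟩`. -/
noncomputable def tL : LF →ₗ[ℂ] ℂ where
  toFun T := inner ℂ dl1 (ap (op T) dl1)
  map_add' _ _ := inner_add_right _ _ _
  map_smul' _ _ := inner_smul_right _ _ _

theorem tL_comm (x y : LF) : tL (x * y) = tL (y * x) := by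
  have hx : (op x : ell2 (FreeGroup (Fin 2)) →L[ℂ] ell2 (FreeGroup (Fin 2))) ∈
      LG (FreeGroup (Fin 2)) := LS_eq ▸ x.2
  have hy : (op y : ell2 (FreeGroup (Fin 2)) →L[ℂ] ell2 (FreeGroup (Fin 2))) ∈
      LG (FreeGroup (Fin 2)) := LS_eq ▸ y.2
  have h := inner_mul_comm hx hy
  rw [← dl1_eq] at h
  exact h

/-- The canonical trace. -/
noncomputable def trL : Tr LF := ⟨tL, tL_comm⟩

theorem exists_el (g : FreeGroup (Fin 2)) :
    ∃ T : LF, ∀ ξ h, co (ap (op T) ξ) h = co ξ (g⁻¹ * h) :=
  ⟨⟨lam _ g, LS_eq ▸ lam_mem _ g⟩, fun _ _ => rfl⟩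

/-- The group element `g` in the free group factor: the left translation
`(el g ξ)(h) = ξ(g⁻¹ h)`. -/
noncomputable def el (g : FreeGroup (Fin 2)) : LF := (exists_el g).choose

/-! ### The matrix algebras -/

/-- The algebra of `n + 1` by `n + 1` matrices with the operator norm. -/
def Mat (n : ℕ) : Type := Matrix (Fin (n + 1)) (Fin (n + 1)) ℂ

noncomputable instance instCMat (n : ℕ) : CStarAlgebra (Mat n) := Matrix.instCStarAlgebra

instance instNMat (n : ℕ) : Nontrivial (Mat n) :=
  (inferInstance : Nontrivial (Matrix (Fin (n + 1)) (Fin (n + 1)) ℂ))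

/-- The normalised trace. -/
noncomputable def tM (n : ℕ) : Mat n →ₗ[ℂ] ℂ where
  toFun := ntr
  map_add' _ _ := (congrArg _ (Matrix.trace_add _ _)).trans (mul_add _ _ _)
  map_smul' _ _ := (congrArg _ (Matrix.trace_smul _ _)).trans (mul_left_comm _ _ _)

theorem tM_comm (n : ℕ) (x y : Mat n) : tM n (x * y) = tM n (y * x) := by
  change ntr (x * y) = ntr (y * x)
  unfold ntr
  exact congrArg _ (Matrix.trace_mul_comm _ _)

/-- The normalised trace. -/
noncomputable def trM (n : ℕ) : Tr (Mat n) := ⟨tM n, tM_comm n⟩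

/-! ### Embeddings -/

/-- The matrix ultraproduct. -/
abbrev MU (𝒰 : Ultrafilter ℕ) : Type := UP trM 𝒰

/-- The ultrapower of the free group factor. -/
abbrev LU {I : Type u} (𝒱 : Ultrafilter I) : Type u := UP (fun _ : I => trL) 𝒱

/-- A unitary matrix as a matrix. -/
def toMat (n : ℕ) (u : UG (Fin (n + 1))) : Mat n := (u : Matrix (Fin (n + 1)) (Fin (n + 1)) ℂ)

theorem memU (U : ∀ n : ℕ, UG (Fin (n + 1))) : Memℓp (fun n => toMat n (U n)) ∞ :=
  memℓp_infty ⟨1, by rintro _ ⟨n, rfl⟩; exact norm_unitary_le (U n)⟩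

theorem memC (I : Type u) (x : LF) : Memℓp (fun _ : I => x) ∞ :=
  memℓp_infty ⟨‖x‖, by rintro _ ⟨n, rfl⟩; exact le_rfl⟩

/-- The class of a sequence of unitary matrices. -/
noncomputable def clU (𝒰 : Ultrafilter ℕ) (U : ∀ n : ℕ, UG (Fin (n + 1))) : MU 𝒰 :=
  cl trM 𝒰 (BF.mk _ (memU U))

/-- The class of a constant family. -/
noncomputable def clC {I : Type u} (𝒱 : Ultrafilter I) (x : LF) : LU 𝒱 :=
  cl (fun _ : I => trL) 𝒱 (BF.mk _ (memC I x))

/-- A unital *-homomorphism `π : L(F_2) → MU 𝒰` is an embedding: it is injective and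
trace preserving, that is, if `π x` is the class of the bounded family `(y_n)`, then the limit of
the normalised traces of the `y_n` is the trace of `x`. -/
def IsEmb {𝒰 : Ultrafilter ℕ} (π : LF →⋆ₐ[ℂ] MU 𝒰) : Prop :=
  Function.Injective π ∧ ∀ (x : LF) (y : BF Mat), π x = cl trM 𝒰 y →
    Tendsto (fun n => tM n (y.at n)) 𝒰 (𝓝 (tL x))

/-- `π : L(F_2) → MU 𝒰` is existential: there are an ultrafilter `𝒱` on some set `I` and an
embedding `θ` of `MU 𝒰` in the ultrapower of `L(F_2)` along `𝒱` (a unital, injective, trace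
preserving *-homomorphism) such that `θ ∘ π` is the diagonal embedding of `L(F_2)`.  Trace
preserving: if `θ` sends the class of `(x_n)` to the class of `(y_i)`, then the traces of the `y_i`
have the same limit along `𝒱` as the traces of the `x_n` along `𝒰`. -/
def IsExistential {𝒰 : Ultrafilter ℕ} (π : LF →⋆ₐ[ℂ] MU 𝒰) : Prop :=
  ∃ (I : Type u) (𝒱 : Ultrafilter I) (θ : MU 𝒰 →⋆ₐ[ℂ] LU 𝒱), Function.Injective θ ∧
    (∀ (x : BF Mat) (y : BF fun _ : I => LF), θ (cl trM 𝒰 x) = cl (fun _ : I => trL) 𝒱 y →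
      ∀ z, Tendsto (fun n => tM n (x.at n)) 𝒰 (𝓝 z) → Tendsto (fun i => tL (y.at i)) 𝒱 (𝓝 z)) ∧
    ∀ x, θ (π x) = clC 𝒱 x

end Pool.Agent.OGP.Lay
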